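import Mathlib
import Pool.Agent.H2R2.Peb.Defs
import Pool.Agent.H2R2.Peb.Final

set_option autoImplicit false

namespace Pool.Agent.Results.MP_048d5b_co.LargeK

open Pool.Agent.H2R2.Peb

/-- For every connected graph `G` with `n` vertices and diameter `d` and every `k ≥ n ^ 3 * 2 ^ d`:
the pebbling numbers `π(G, 𝒞_k)` and `π_k(G)` are the same number `t`; moreover every configuration
`C` of size at least `t - (s(D) - 1)` is `D`-solvable for every configuration `D` of size `k`, where
`s(D)` is the number of vertices `v` with `D v ≠ 0`. -/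
theorem result {V : Type*} [Fintype V] [DecidableEq V] (G : SimpleGraph V) (hG : G.Connected)
    (k : ℕ) (hk : Fintype.card V ^ 3 * 2 ^ G.diam ≤ k) :
    ∃ t : ℕ, IsLeast (solvSizes G (targets V k)) t ∧ IsLeast (solvSizes G (singleTargets V k)) t ∧
      ∀ C D : V → ℕ, size D = k →
        t + 1 ≤ size C + (Finset.univ.filter fun v => D v ≠ 0).card → Solvable G C D := by
  classical
  have hne : Nonempty V := hG.nonempty
  have htop : G.ediam ≠ ⊤ := SimpleGraph.connected_iff_ediam_ne_top.1 hG
  have hd : ∀ y w, G.dist y w ≤ G.diam := fun y w => SimpleGraph.dist_le_diam htop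
  obtain ⟨x0, v0, hxv⟩ := G.exists_dist_eq_diam
  have hn0 : 0 < Fintype.card V := Fintype.card_pos
  have hk0 : 0 < k := lt_of_lt_of_le (by positivity) hk
  have hnon : (solvSizes G (singleTargets V k)).Nonempty := by
    refine ⟨Fintype.card V * 2 ^ G.diam + 2 ^ G.diam * k, fun C hC D hD => ?_⟩
    obtain ⟨v, rfl⟩ := hD
    exact universal hG hd hC.ge (size_single v k)
  set t := sInf (solvSizes G (singleTargets V k)) with ht
  have htm : t ∈ solvSizes G (singleTargets V k) := Nat.sInf_mem hnon
  have hstrong : ∀ C D : V → ℕ, size D = k →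
      t + 1 ≤ size C + (Finset.univ.filter fun v => D v ≠ 0).card → Solvable G C D :=
    fun C D hD hC => strong hG hd hxv hk htm hD hC
  refine ⟨t, ⟨?_, ?_⟩, ⟨htm, fun s hs => Nat.sInf_le hs⟩, hstrong⟩
  · intro C hC D hD
    refine hstrong C D hD ?_
    have h1 : 0 < (Finset.univ.filter fun v => D v ≠ 0).card := by
      rw [Finset.card_pos]
      by_contra hc
      rw [Finset.not_nonempty_iff_eq_empty, Finset.filter_eq_empty_iff] at hc
      have h2 : size D = 0 := Finset.sum_eq_zero fun v _ => by
        have := hc (Finset.mem_univ v)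
        push Not at this
        exact this
      have h3 : size D = k := hD
      omega
    rw [hC]
    omega
  · intro s hs
    refine Nat.sInf_le fun C hC D hD => ?_
    obtain ⟨v, rfl⟩ := hD
    exact hs C hC _ (size_single v k)

end Pool.Agent.Results.MP_048d5b_co.LargeK
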